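import Pool.Agent.helper98.DNX.Main
import Pool.Agent.helper16.DH.F

/-!
# The dense end: `d - λ_d(m) = μ log₂(1/μ) + O(μ)`

`V d` is `Fin d → Bool`; `cube d` joins two strings at Hamming distance one; `sub U` is the
subgraph induced on `U`; `IsEig U t` says that `t` is an eigenvalue of its adjacency matrix;
`IsTop U t` that it is the largest one; `lam d m` is the maximum of the largest eigenvalue over
all sets of `m` vertices.
-/

namespace Pool.Agent.Results.MP_d9e35a_co.DenseEnd

open Pool.Agent.helper65.HC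

/-- the density of the complement of a set of `m` vertices -/
noncomputable def mu (d m : ℕ) : ℝ := 1 - (m : ℝ) / 2 ^ d

/-- the binary logarithm of its inverse -/
noncomputable def L (d m : ℕ) : ℝ := Real.logb 2 (1 / mu d m)

/-- For `2^(d-1) ≤ m < 2^d`, with `μ = 1 - m/2^d` and `L = log₂(1/μ)`:
`μ (L - min(600, 2 log₂(L+1))) ≤ d - λ_d(m) ≤ μ (L + 2)`, and `λ_d(m)` is a maximum. -/
theorem result (d m : ℕ) (h1 : 2 ^ d ≤ 2 * m) (h2 : m < 2 ^ d) :
    mu d m * (L d m - min 600 (2 * Real.logb 2 (L d m + 1))) ≤ (d : ℝ) - lam d m ∧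
      (d : ℝ) - lam d m ≤ mu d m * (L d m + 2) ∧
      IsGreatest {t | ∃ U : Finset (V d), U.card = m ∧ IsTop U t} (lam d m) := by
  have hm : 1 ≤ m := by
    have : 0 < 2 ^ d := by positivity
    omega
  refine ⟨?_, (Pool.Agent.helper98.DNX.main d m h1 h2).2, lam_isGreatest d m hm h2.le⟩
  rcases min_choice (600 : ℝ) (2 * Real.logb 2 (L d m + 1)) with h | h
  · rw [h]
    exact (Pool.Agent.helper98.DNX.main d m h1 h2).1
  · rw [h]
    exact Pool.Agent.helper16.DH.dense_lower d m hm h2

end Pool.Agent.Results.MP_d9e35a_co.DenseEnd
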