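import Pool.Agent.helper99.PLR.Main

/-!
# Subgraphs of the hypercube with polynomially many vertices: two terms

`V d` is `Fin d → Bool`; `cube d` joins two strings at Hamming distance one; `sub U` is the
subgraph induced on `U`; `IsEig U t` says that `t` is an eigenvalue of its adjacency matrix;
`IsTop U t` that it is the largest one; `lam d m` is the maximum of the largest eigenvalue over
all sets of `m` vertices. `hermiteZero n` is the largest zero of the Hermite polynomial `He_n`.
-/

namespace Pool.Agent.Results.MP_d9e35a_co.PolynomialRange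

open Pool.Agent.helper65.HC

/-- the largest zero of the (probabilists') Hermite polynomial `He_n` -/
noncomputable def hermiteZero (n : ℕ) : ℝ :=
  sSup {x : ℝ | Polynomial.aeval x (Polynomial.hermite n) = 0}

theorem result : ∀ k : ℕ, 1 ≤ k →
    IsGreatest {x : ℝ | Polynomial.aeval x (Polynomial.hermite (k + 1)) = 0} (hermiteZero (k + 1)) ∧
    ∀ ε : ℝ, 0 < ε → ∃ K₀ : ℕ, ∀ K₁ ≥ K₀, ∃ (C θ : ℝ) (d₀ : ℕ), 0 < C ∧ 0 < θ ∧
      ∀ d ≥ d₀, ∀ m : ℕ, d.choose k ≤ m → (m : ℝ) ≤ θ * d * (d.choose k : ℝ) →
      ∀ K : ℕ, K = m / d.choose k →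
      IsGreatest {t | ∃ U : Finset (V d), U.card = m ∧ IsTop U t} (lam d m) ∧
      lam K K - (if K < K₁ then C / √d else ε * √K) ≤ lam d m - hermiteZero (k + 1) * √d ∧
      lam d m - hermiteZero (k + 1) * √d ≤
        lam K K + (if K < K₁ then C * (d.choose k : ℝ) / (√d * ((K + 1) * (d.choose k : ℝ) - m))
          else ε * √K) := by
  intro k hk
  exact ⟨Pool.Agent.PLR.HRM_greatest k, Pool.Agent.PLR.main k hk⟩

end Pool.Agent.Results.MP_d9e35a_co.PolynomialRange
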