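import Pool.Agent.helper9.HQ.Main
import Pool.Agent.helper9.HER.Main

/-!
# Induced subgraphs of the hypercube: explicit bounds for all numbers of vertices

`V d` is `Fin d → Bool`; `cube d` joins two strings at Hamming distance one; `sub U` is the
subgraph induced on `U`; `IsEig U t` says that `t` is an eigenvalue of its adjacency matrix;
`IsTop U t` that it is the largest one; `lam d m` is the maximum of the largest eigenvalue over
all sets of `m` vertices.

For every `r`, let `h` be the largest zero of the Hermite polynomial of degree `r + 1`. Then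
`lam d m ≤ h √d + 9 (r + 1) m ^ (1 / (2 r + 2))` for all `d` and `m`, and `lam d m ≥ (1 - r / d) h √d` if `m` is at least
the number of vertices of a Hamming ball of radius `r`. Moreover, in the window between the balls of radius 1 and 2 the
leading term of `lam d m` is known for all `m`.

Sketch of the proof of the upper bound: by compressions the set of vertices is a shifted down-set `A` of subsets of
`{0, …, d - 1}`. If `binom(t, k) > m` then no member of `A` has `k` elements `≥ t`. If every member of `A` has at most `k`
elements in `I`, the edges in the directions in `I` contribute at most `h_{k + 1} √|I|` to the largest eigenvalue: weights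
`n ^ (-j / 2) He_j (h_{k + 1})` on the members with `j` elements in `I`, where `n = |I|` and `h_{k + 1}` is the largest zero of
the Hermite polynomial `He_{k + 1}`. Take three sets of directions: below `t_1`, between `t_1` and `t_2`, above `t_2`, with
`binom(t_1, 2 r + 2) > m` and `binom(t_2, r + 1) > m`.
-/

namespace Pool.Agent.Results.MP_d9e35a_co.UniformBounds

open Pool.Agent.helper65.HC

/-- the value of the quasi-star: the empty set, the singletons and the pairs meeting `s d` coordinates -/
noncomputable def cS (s : ℝ) : ℝ := 1 + s + √(4 * s - 3 * s ^ 2)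

/-- the value of the quasi-clique: the empty set, the singletons and the pairs inside `t d` coordinates -/
noncomputable def cC (t : ℝ) : ℝ := (1 + 2 * t + √(1 - 4 * t + 12 * t ^ 2)) / 2

/-- the limit function between the balls of radius 1 and 2; `a` is the proportion of the pairs -/
noncomputable def c (a : ℝ) : ℝ := max (cS (1 - √(1 - a))) (cC (√a))

theorem result :
    (∀ d m : ℕ, 1 ≤ m → m ≤ 2 ^ d →
      IsGreatest {t | ∃ U : Finset (V d), U.card = m ∧ IsTop U t} (lam d m)) ∧
    (∀ r : ℕ, ∃ h : ℝ,
      IsGreatest {x : ℝ | Polynomial.aeval x (Polynomial.hermite (r + 1)) = 0} h ∧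
      ∀ d m : ℕ, 1 ≤ m → m ≤ 2 ^ d →
        lam d m ≤ h * √(d : ℝ) + 9 * (r + 1) * (m : ℝ) ^ ((1 : ℝ) / (2 * r + 2)) ∧
        (∑ i ∈ Finset.range (r + 1), d.choose i ≤ m → (1 - (r : ℝ) / d) * (h * √(d : ℝ)) ≤ lam d m)) ∧
    (∀ eps : ℝ, 0 < eps → ∃ d₀ : ℕ, ∀ d ≥ d₀, ∀ m : ℕ,
      d + 1 ≤ m → m ≤ 1 + d + d.choose 2 →
      |lam d m ^ 2 / d - c (min 1 (2 * m / d ^ 2))| < eps) :=
  ⟨lam_isGreatest, Pool.Agent.helper9.HER.polynomialRange,
    fun eps heps => (Pool.Agent.helper9.HQ.main eps heps).imp
      fun _ h d hd m h1 h2 => (h d hd m h1 h2).1⟩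

end Pool.Agent.Results.MP_d9e35a_co.UniformBounds
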