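import Pool.Agent.helper9.HX.Explicit

/-!
# Subgraphs of the hypercube with at most `2 d` vertices: the exact value

`V d` is `Fin d → Bool`; `cube d` joins two strings at Hamming distance one; `sub U` is the
subgraph induced on `U`; `IsEig U t` says that `t` is an eigenvalue of its adjacency matrix;
`IsTop U t` that it is the largest one; `lam d m` is the maximum of the largest eigenvalue over
all sets of `m` vertices.
-/

namespace Pool.Agent.Results.MP_d9e35a_co.UpToTwoD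

open Pool.Agent.helper65.HC

theorem result : ∃ m₀ : ℕ, ∀ d m : ℕ, m₀ ≤ m → m ≤ 2 * d →
    IsGreatest {t | ∃ U : Finset (V d), U.card = m ∧ IsTop U t} (lam d m) ∧ 0 ≤ lam d m ∧
    (m ≤ d + 1 → lam d m ^ 2 = (m : ℝ) - 1) ∧
    (d + 1 ≤ m → m + 7 ≤ 2 * d →
      lam d m ^ 2 = ((m : ℝ) + √((2 * d - m) ^ 2 + 16 * (m - 1 - d))) / 2) ∧
    (2 * d ≤ m + 8 → Even m → lam d m ^ 2 = (m : ℝ) / 2 + √(2 * m - 4)) ∧
    (2 * d ≤ m + 8 → Odd m → lam d m ^ 2 = ((m : ℝ) + √(8 * m - 23)) / 2) :=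
  Pool.Agent.helper9.HX.explicit

end Pool.Agent.Results.MP_d9e35a_co.UpToTwoD
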